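import Pool.Agent.Q123.PLP.PT

/-!
# Project PLP (helper25), job PLP-LOCX: the local inequality for a deterministic choice
-/

set_option autoImplicit false

open Finset Pool.Agent.Helper123.PLP

namespace Pool.Agent.Q123.PLP

open Pool.Agent.Q25.PLP

section

variable {P : Type} [DecidableEq P] {V : Finset P} {L : Finset (Finset P)} {γ : P → ℝ} {X : Finset P → P} {x : P}

theorem trm_low (hLS : IsLS V L) (hX : IsLow L γ X) (hx : ∀ y ∈ V, γ x ≤ γ y) :
    trm V L γ X x = (NN L X x : ℝ) * ((NN L X x : ℝ) - 1) := by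
  have h0 : ∀ y ∈ V, max (γ x - γ y) 0 = 0 := fun y hy => max_eq_right (by linarith [hx y hy])
  have h1 : bet V γ x = 0 := Finset.sum_eq_zero fun z hz => h0 z hz
  have h2 : eta L γ X x = 0 := Finset.sum_eq_zero fun l hl => by
    have hl' := (Finset.mem_filter.1 hl).1
    exact h0 _ (hLS.sub l hl' (hX l hl').1)
  have h3 : Qx V L γ x = 0 := Finset.sum_eq_zero fun l hl => by
    have hl' := (Finset.mem_filter.1 hl).1
    rw [Finset.sum_eq_zero, mul_zero]
    intro z hz
    rw [h0 z (hLS.sub l hl' hz), zero_pow two_ne_zero]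
  unfold trm
  rw [h1, h2, h3]
  ring

theorem NN_term_nonneg (n : ℕ) : 0 ≤ (n : ℝ) * ((n : ℝ) - 1) := by
  rcases Nat.eq_zero_or_pos n with h | h
  · rw [h]
    simp
  · have h1 : (1 : ℝ) ≤ n := by exact_mod_cast h
    exact mul_nonneg (by linarith) (by linarith)

theorem QQ_nonneg (hLS : IsLS V L) : 0 ≤ QQ V L γ := by
  unfold QQ
  refine mul_nonneg (by norm_num) (Finset.sum_nonneg fun l hl => ?_)
  have h1 := card_le hLS hl
  exact mul_nonneg (by linarith) (Finset.sum_nonneg fun _ _ => Finset.sum_nonneg fun _ _ => sq_nonneg _)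

theorem lowS_anti {θ : ℝ} (hθ : 0 ≤ θ) : lowS V γ x θ ⊆ lowS V γ x 0 := by
  intro z hz
  obtain ⟨h1, h2⟩ := Finset.mem_filter.1 hz
  exact Finset.mem_filter.2 ⟨h1, lt_of_le_of_lt hθ h2⟩

end

/-- the points with a negative contribution -/
theorem bad_k (hC1 : S_C1) (hTC : S_TC) (hPT : S_PT) (hPTT : S_PTT) {P : Type} [DecidableEq P] {V : Finset P}
    {L : Finset (Finset P)} {γ : P → ℝ} {X : Finset P → P} (hLS : IsLS V L) (hX : IsLow L γ X)
    (hB : ∀ x ∈ V, ∀ M ∈ L, x ∈ M → (∀ z ∈ M.erase x, (thr L z).card = M.card) → M.card ≠ 2)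
    {x : P} (hx : x ∈ V) (hneg : trm V L γ X x < 0) :
    ∃ k : ℕ, 2 ≤ k ∧ V.card ≤ k ^ 2 + k + 1 ∧ k ^ 2 + 3 ≤ V.card ∧ k ^ 2 + 1 ≤ (lowS V γ x 0).card ∧
      -(1 / (2 * (k : ℝ))) ≤ trm V L γ X x := by
  classical
  have hN : NN L X x ≠ 0 := fun h => absurd (trm_zero (γ := γ) hLS h) (not_le.2 hneg)
  obtain ⟨l1, hl1⟩ := Finset.card_pos.1 (Nat.pos_of_ne_zero hN)
  obtain ⟨hl1L, hXl1⟩ := Finset.mem_filter.1 hl1
  have hxl1 : x ∈ l1 := by
    rw [← hXl1]
    exact (hX l1 hl1L).1
  obtain ⟨y, hy, hyx⟩ := Finset.exists_mem_ne (s := l1) (by have := hLS.two_le l1 hl1L; omega) x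
  have hyV : y ∈ V := hLS.sub l1 hl1L hy
  have hγ : γ x ≤ γ y := by
    have := (hX l1 hl1L).2 y hy
    rwa [hXl1] at this
  have hyS : ∀ θ : ℝ, 0 ≤ θ → y ∉ lowS V γ x θ := by
    intro θ h0 h
    have := (Finset.mem_filter.1 h).2
    linarith
  have hxS : ∀ θ : ℝ, 0 ≤ θ → x ∉ lowS V γ x θ := by
    intro θ h0 h
    have := (Finset.mem_filter.1 h).2
    linarith
  have hsub : ∀ θ : ℝ, lowS V γ x θ ⊆ V := fun θ => Finset.filter_subset _ _
  have hdich : ∀ θ : ℝ, 0 ≤ θ → (lowS V γ x θ).card ≤ (mis L x (lowS V γ x θ)).card ∨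
      ∃ M ∈ L, x ∈ M ∧ M.erase x ⊆ lowS V γ x θ ∧ ∀ z ∈ M.erase x, (thr L z).card = M.card := fun θ h0 =>
    hC1 P V L hLS x hx _ (hsub θ) (hxS θ h0) y hyV (hyS θ h0) hyx
  have hex : ∃ θ : ℝ, 0 ≤ θ ∧ (mis L x (lowS V γ x θ)).card < (lowS V γ x θ).card := by
    by_contra hcon
    push Not at hcon
    exact absurd (hPT P V L γ X x hLS hX hx hcon) (not_le.2 hneg)
  obtain ⟨θ0, hθ0, hlt⟩ := hex
  obtain ⟨M, hM, hxM, hMS, hMt⟩ := (hdich θ0 hθ0).resolve_left (not_le.2 hlt)
  have hM2 := hLS.two_le M hM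
  have hMne := hB x hx M hM hxM hMt
  obtain ⟨k, hk⟩ : ∃ k, M.card = k + 1 := ⟨M.card - 1, by omega⟩
  have hk2 : 2 ≤ k := by omega
  obtain ⟨t1, t2, t3, _⟩ := hTC P V L hLS x hx M hM hxM hMt
  have g1 : ∀ l ∈ L, x ∈ l → l.card ≤ k + 1 := by
    intro l hl hxl
    rw [← hk]
    exact t1 l hl hxl
  have e1 : M.card - 1 = k := by omega
  rw [e1] at t2 t3
  have g3 : V.card ≤ k ^ 2 + k + 1 := by
    have := t3 (by omega)
    omega
  have g4 : k ^ 2 + 1 ≤ (lowS V γ x 0).card := by
    have h1 := t2 _ hMS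
    have h2 := Finset.card_le_card (lowS_anti (V := V) (γ := γ) (x := x) hθ0)
    omega
  have g5 : (lowS V γ x 0).card + 2 ≤ V.card := by
    have h1 : insert x (insert y (lowS V γ x 0)) ⊆ V := by
      intro z hz
      rw [mem_insert, mem_insert] at hz
      rcases hz with rfl | rfl | hz
      · exact hx
      · exact hyV
      · exact hsub 0 hz
    have h2 := Finset.card_le_card h1
    rw [Finset.card_insert_of_notMem, Finset.card_insert_of_notMem (hyS 0 le_rfl)] at h2
    · exact h2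
    · rw [mem_insert]
      rintro (h | h)
      · exact hyx h.symm
      · exact hxS 0 le_rfl h
  refine ⟨k, hk2, g3, by omega, g4, ?_⟩
  refine hPTT P V L γ X x k hLS hX hx hk2 g1 g3 (by omega) fun θ h0 => ?_
  rcases hdich θ h0 with h | ⟨M', hM', hxM', hMS', hMt'⟩
  · exact (min_le_left _ _).trans h
  · obtain ⟨s1, s2, _, _⟩ := hTC P V L hLS x hx M' hM' hxM' hMt'
    have h1 := t1 M' hM' hxM'
    have h2 := s1 M hM hxM
    have h3 : M'.card - 1 = k := by omega
    have h4 := s2 _ hMS'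
    rw [h3] at h4
    exact (min_le_right _ _).trans h4

theorem t_LOCX (hC1 : S_C1) (hTC : S_TC) (hNP : S_NP) (hDEC : S_DEC) (hLOW : S_LOW) (hPT : S_PT)
    (hPTT : S_PTT) : S_LOCX := by
  intro P _ V L γ X hLS hX hne
  classical
  have hlow := hLOW P V L γ X hLS hX hne
  set C := V.filter (fun x => ∀ y ∈ V, γ x ≤ γ y) with hC
  have hCV : C ⊆ V := Finset.filter_subset _ _
  by_cases hA : ∃ x ∈ V, ∃ M ∈ L, x ∈ M ∧ (∀ z ∈ M.erase x, (thr L z).card = M.card) ∧ M.card = 2
  · obtain ⟨x, hx, M, hM, hxM, hMt, hM2⟩ := hA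
    obtain ⟨l0, hl0, hxl0, hV⟩ := (hTC P V L hLS x hx M hM hxM hMt).2.2.2 hM2
    have h1 := hNP P V L hLS x l0 hl0 hxl0 hV γ X hX
    have h2 := QQ_nonneg (γ := γ) hLS
    have h3 : 2 ≤ coll V L X := by
      unfold coll
      calc (2 : ℝ) ≤ ∑ x ∈ C, trm V L γ X x := hlow
        _ = ∑ x ∈ C, (NN L X x : ℝ) * ((NN L X x : ℝ) - 1) := by
            refine Finset.sum_congr rfl fun z hz => ?_
            exact trm_low hLS hX (Finset.mem_filter.1 hz).2
        _ ≤ _ := Finset.sum_le_sum_of_subset_of_nonneg hCV fun z _ _ => NN_term_nonneg _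
    linarith
  · have hB : ∀ x ∈ V, ∀ M ∈ L, x ∈ M → (∀ z ∈ M.erase x, (thr L z).card = M.card) → M.card ≠ 2 := by
      intro x hx M hM hxM hMt h2
      exact hA ⟨x, hx, M, hM, hxM, hMt, h2⟩
    rw [hDEC P V L γ X hLS hX, ← Finset.sum_sdiff hCV]
    set B := (V \ C).filter (fun x => trm V L γ X x < 0) with hBdef
    have hBV : ∀ x ∈ B, x ∈ V ∧ trm V L γ X x < 0 := by
      intro x hx
      obtain ⟨h1, h2⟩ := Finset.mem_filter.1 hx
      exact ⟨(Finset.mem_sdiff.1 h1).1, h2⟩
    have h1 : ∑ x ∈ B, trm V L γ X x ≤ ∑ x ∈ V \ C, trm V L γ X x := by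
      rw [← Finset.sum_filter_add_sum_filter_not (V \ C) (fun x => trm V L γ X x < 0)]
      have h2 : 0 ≤ ∑ x ∈ (V \ C).filter (fun x => ¬ trm V L γ X x < 0), trm V L γ X x :=
        Finset.sum_nonneg fun x hx => not_lt.1 (Finset.mem_filter.1 hx).2
      linarith
    have h2 : -(1 / 2 : ℝ) ≤ ∑ x ∈ B, trm V L γ X x := by
      rcases B.eq_empty_or_nonempty with h0 | h0
      · rw [h0, Finset.sum_empty]
        norm_num
      · obtain ⟨x0, hx0, hmin⟩ := Finset.exists_min_image B γ h0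
        obtain ⟨k, hk2, hk3, hk4, hk5, _⟩ := bad_k hC1 hTC hPT hPTT hLS hX hB (hBV x0 hx0).1 (hBV x0 hx0).2
        have hall : ∀ x ∈ B, -(1 / (2 * (k : ℝ))) ≤ trm V L γ X x := by
          intro x hx
          obtain ⟨k', hk2', hk3', hk4', hk5', hk6'⟩ :=
            bad_k hC1 hTC hPT hPTT hLS hX hB (hBV x hx).1 (hBV x hx).2
          have hkk : k' = k := by
            rcases lt_trichotomy k' k with h | h | h
            · exfalso
              have : (k' + 1) ^ 2 ≤ k ^ 2 := Nat.pow_le_pow_left h 2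
              nlinarith
            · exact h
            · exfalso
              have : (k + 1) ^ 2 ≤ k' ^ 2 := Nat.pow_le_pow_left h 2
              nlinarith
          rw [hkk] at hk6'
          exact hk6'
        have hcard : B.card ≤ k := by
          have h3 : Disjoint B (lowS V γ x0 0) := by
            rw [Finset.disjoint_left]
            intro z hz hz'
            have h4 := hmin z hz
            have h5 := (Finset.mem_filter.1 hz').2
            linarith
          have h4 : B ∪ lowS V γ x0 0 ⊆ V := by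
            intro z hz
            rcases Finset.mem_union.1 hz with h | h
            · exact (hBV z h).1
            · exact (Finset.mem_filter.1 h).1
          have h5 := Finset.card_le_card h4
          rw [Finset.card_union_of_disjoint h3] at h5
          omega
        have hk0 : (0 : ℝ) < k := by
          have : 0 < k := by omega
          exact_mod_cast this
        calc -(1 / 2 : ℝ) = (k : ℝ) * (-(1 / (2 * (k : ℝ)))) := by
              field_simp
          _ ≤ (B.card : ℝ) * (-(1 / (2 * (k : ℝ)))) := by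
              refine mul_le_mul_of_nonpos_right (by exact_mod_cast hcard) ?_
              rw [neg_nonpos]
              positivity
          _ ≤ ∑ x ∈ B, trm V L γ X x := by
              rw [← nsmul_eq_mul]
              exact Finset.card_nsmul_le_sum B _ _ hall
    linarith

end Pool.Agent.Q123.PLP
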