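import Pool.Agent.Q25.PLP.Stm

/-!
# Project PLP (helper25), job PLP-PT: the contribution of a point
-/

set_option autoImplicit false

open Finset Pool.Agent.Helper123.PLP

namespace Pool.Agent.Q123.PLP

open Pool.Agent.Q25.PLP

theorem card_sub {α : Type} (s : Finset α) (p : α → Prop) [DecidablePred p] :
    (univ.filter (fun z : ↥s => p z.1)).card = (s.filter p).card := by
  classical
  rw [← Finset.card_map (Function.Embedding.subtype _)]
  congr 1
  ext a
  simp only [mem_map, mem_filter, mem_univ, true_and, Function.Embedding.subtype_apply]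
  constructor
  · rintro ⟨⟨b, hb⟩, h1, rfl⟩
    exact ⟨hb, h1⟩
  · rintro ⟨h1, h2⟩
    exact ⟨⟨a, h1⟩, h2, rfl⟩

section

variable {P : Type} [DecidableEq P] {V : Finset P} {L : Finset (Finset P)} {γ : P → ℝ} {X : Finset P → P} {x : P}

theorem card_le (hLS : IsLS V L) {l : Finset P} (hl : l ∈ L) : (l.card : ℝ) ≤ V.card := by
  exact_mod_cast Finset.card_le_card (hLS.sub l hl)

theorem eta_nonneg : 0 ≤ eta L γ X x := by
  unfold eta
  exact Finset.sum_nonneg fun _ _ => le_max_right _ _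

theorem Qx_nonneg (hLS : IsLS V L) : 0 ≤ Qx V L γ x := by
  unfold Qx
  refine Finset.sum_nonneg fun l hl => ?_
  have h1 := card_le hLS (Finset.mem_filter.1 hl).1
  exact mul_nonneg (by linarith) (Finset.sum_nonneg fun _ _ => sq_nonneg _)

/-- the lines on which `X l` is much lower than `x` -/
theorem mis_eq (hLS : IsLS V L) (hX : IsLow L γ X) {θ : ℝ} (hθ : 0 ≤ θ) :
    mis L x (lowS V γ x θ) = (L.filter (fun l => x ∉ l)).filter (fun l => θ < max (γ x - γ (X l)) 0) := by
  ext l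
  unfold mis lowS
  simp only [mem_filter]
  constructor
  · rintro ⟨hl, hx, z, hz⟩
    rw [mem_inter, mem_filter] at hz
    refine ⟨⟨hl, hx⟩, lt_max_of_lt_left ?_⟩
    have := (hX l hl).2 z hz.1
    linarith [hz.2.2]
  · rintro ⟨⟨hl, hx⟩, h⟩
    refine ⟨hl, hx, X l, ?_⟩
    rw [mem_inter, mem_filter]
    refine ⟨(hX l hl).1, hLS.sub l hl (hX l hl).1, ?_⟩
    rcases lt_max_iff.1 h with h | h
    · exact h
    · exact absurd h (not_lt.2 hθ)

theorem low_eq {θ : ℝ} (hθ : 0 ≤ θ) :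
    lowS V γ x θ = (V.erase x).filter (fun z => θ < max (γ x - γ z) 0) := by
  ext z
  unfold lowS
  simp only [mem_filter, mem_erase]
  constructor
  · rintro ⟨hz, h⟩
    refine ⟨⟨?_, hz⟩, lt_max_of_lt_left h⟩
    rintro rfl
    rw [sub_self] at h
    exact absurd h (not_lt.2 hθ)
  · rintro ⟨⟨_, hz⟩, h⟩
    refine ⟨hz, ?_⟩
    rcases lt_max_iff.1 h with h | h
    · exact h
    · exact absurd h (not_lt.2 hθ)

theorem bet_eq (hx : x ∈ V) : bet V γ x = ∑ z ∈ V.erase x, max (γ x - γ z) 0 := by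
  unfold bet
  rw [← Finset.add_sum_erase V _ hx]
  simp

theorem Qx_eq (hLS : IsLS V L) {ln : P → Finset P} (hln : ∀ z ∈ V.erase x, ln z ∈ L ∧ x ∈ ln z ∧ z ∈ ln z) :
    Qx V L γ x = ∑ z ∈ V.erase x, ((V.card : ℝ) - (ln z).card) * (max (γ x - γ z) 0) ^ 2 := by
  have hmaps : ∀ z ∈ V.erase x, ln z ∈ thr L x := by
    intro z hz
    obtain ⟨h1, h2, _⟩ := hln z hz
    exact Finset.mem_filter.2 ⟨h1, h2⟩
  rw [← Finset.sum_fiberwise_of_maps_to hmaps]
  unfold Qx
  refine Finset.sum_congr rfl fun l hl => ?_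
  obtain ⟨hl1, hl2⟩ := Finset.mem_filter.1 hl
  have hfib : (V.erase x).filter (fun z => ln z = l) = l.erase x := by
    ext z
    simp only [mem_filter, mem_erase]
    constructor
    · rintro ⟨⟨h1, h2⟩, h3⟩
      obtain ⟨_, _, h4⟩ := hln z (Finset.mem_erase.2 ⟨h1, h2⟩)
      rw [h3] at h4
      exact ⟨h1, h4⟩
    · rintro ⟨h1, h2⟩
      have h3 : z ∈ V.erase x := Finset.mem_erase.2 ⟨h1, hLS.sub l hl1 h2⟩
      obtain ⟨h4, h5, h6⟩ := hln z h3
      exact ⟨Finset.mem_erase.1 h3, hLS.uniq _ h4 _ hl1 z x h1 h6 h5 h2 hl2⟩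
  rw [hfib, Finset.mul_sum, ← Finset.add_sum_erase l _ hl2, sub_self, max_self]
  rw [zero_pow two_ne_zero, mul_zero, zero_add]
  refine Finset.sum_congr rfl fun z hz => ?_
  have h1 : z ∈ V.erase x := by
    rw [← hfib] at hz
    exact (Finset.mem_filter.1 hz).1
  have h2 : ln z = l := by
    rw [← hfib] at hz
    exact (Finset.mem_filter.1 hz).2
  rw [h2]

theorem exists_ln (hLS : IsLS V L) (hx : x ∈ V) : ∃ ln : P → Finset P,
    ∀ z ∈ V.erase x, ln z ∈ L ∧ x ∈ ln z ∧ z ∈ ln z := by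
  have h : ∀ z, ∃ l : Finset P, z ∈ V.erase x → l ∈ L ∧ x ∈ l ∧ z ∈ l := by
    intro z
    by_cases hz : z ∈ V.erase x
    · obtain ⟨h1, h2⟩ := Finset.mem_erase.1 hz
      obtain ⟨l, h3, h4, h5⟩ := hLS.ex x hx z h2 (Ne.symm h1)
      exact ⟨l, fun _ => ⟨h3, h4, h5⟩⟩
    · exact ⟨∅, fun h => absurd h hz⟩
  choose ln hln using h
  exact ⟨ln, hln⟩

/-- the lines which choose `x` -/
theorem NN_eq : NN L X x = (L.filter (fun l => X l = x)).card := rfl

theorem trm_zero (hLS : IsLS V L) (hN : NN L X x = 0) : 0 ≤ trm V L γ X x := by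
  unfold trm
  rw [hN]
  have h1 := eta_nonneg (L := L) (γ := γ) (X := X) (x := x)
  have h2 := Qx_nonneg (γ := γ) (x := x) hLS
  push_cast
  linarith

end

theorem t_PT (hCB : S_CB) (hABS : S_ABS) : S_PT := by
  intro P _ V L γ X x hLS hX hx hθ
  classical
  rcases Nat.eq_zero_or_pos (NN L X x) with hN | hN
  · exact trm_zero hLS hN
  obtain ⟨ln, hln⟩ := exists_ln hLS hx
  have hN1 : (1 : ℝ) ≤ (NN L X x : ℝ) := by exact_mod_cast hN
  have hc1 : ∀ θ : ℝ, 0 ≤ θ → (univ.filter (fun z : ↥(V.erase x) => θ < max (γ x - γ z.1) 0)).card =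
      (lowS V γ x θ).card := by
    intro θ h0
    rw [card_sub (V.erase x) (fun z => θ < max (γ x - γ z) 0), low_eq h0]
  have hc2 : ∀ θ : ℝ, 0 ≤ θ →
      (univ.filter (fun l : ↥(L.filter (fun l => x ∉ l)) => θ < max (γ x - γ (X l.1)) 0)).card =
      (mis L x (lowS V γ x θ)).card := by
    intro θ h0
    rw [card_sub (L.filter (fun l => x ∉ l)) (fun l => θ < max (γ x - γ (X l)) 0), mis_eq hLS hX h0]
  have hmain := hABS ↥(V.erase x) ↥(L.filter (fun l => x ∉ l)) (fun z => max (γ x - γ z.1) 0)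
    (fun l => max (γ x - γ (X l.1)) 0) (fun z => (V.card : ℝ) - (ln z.1).card) (NN L X x : ℝ) hN1
    (fun z => le_max_right _ _) (fun l => le_max_right _ _)
    (fun z => sub_nonneg.2 (card_le hLS (hln z.1 z.2).1))
    (fun θ h0 => by
      rw [hc1 θ h0, hc2 θ h0]
      exact hθ θ h0)
    (fun θ h0 z hz => by
      rw [hc1 θ h0, hc2 θ h0]
      have hzl : z.1 ∈ lowS V γ x θ := by
        rw [low_eq h0, Finset.mem_filter]
        exact ⟨z.2, hz⟩
      obtain ⟨h1, h2, h3⟩ := hln z.1 z.2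
      have hsub : lowS V γ x θ ⊆ V := Finset.filter_subset _ _
      have hxl : x ∉ lowS V γ x θ := by
        rw [low_eq h0, Finset.mem_filter, Finset.mem_erase]
        rintro ⟨⟨h, _⟩, _⟩
        exact h rfl
      have hA : ∀ l ∈ L.filter (fun l => X l = x), ∀ w ∈ l, γ x ≤ γ w := by
        intro l hl w hw
        obtain ⟨h4, h5⟩ := Finset.mem_filter.1 hl
        rw [← h5]
        exact (hX l h4).2 w hw
      have hcb := hCB P V L hLS x hx (lowS V γ x θ) hsub hxl (L.filter (fun l => X l = x))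
        (fun l hl => by
          obtain ⟨h4, h5⟩ := Finset.mem_filter.1 hl
          refine Finset.mem_filter.2 ⟨h4, ?_⟩
          rw [← h5]
          exact (hX l h4).1)
        (fun l hl => by
          rw [Finset.eq_empty_iff_forall_notMem]
          intro w hw
          rw [mem_inter] at hw
          have h6 := hA l hl w hw.1
          have h7 := (Finset.mem_filter.1 hw.2).2
          linarith)
        (ln z.1) h1 h2
        (fun h => by
          have h6 := hA _ h z.1 h3
          have h7 := (Finset.mem_filter.1 hzl).2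
          linarith)
      rw [← NN_eq] at hcb
      have hcb' : (NN L X x : ℝ) * (lowS V γ x θ).card + (NN L X x : ℝ) * (ln z.1).card ≤
          (mis L x (lowS V γ x θ)).card + (NN L X x : ℝ) * V.card := by exact_mod_cast hcb
      linarith)
  rw [Finset.sum_coe_sort (V.erase x) (fun z => max (γ x - γ z) 0),
    Finset.sum_coe_sort (L.filter (fun l => x ∉ l)) (fun l => max (γ x - γ (X l)) 0),
    Finset.sum_coe_sort (V.erase x) (fun z => ((V.card : ℝ) - (ln z).card) * (max (γ x - γ z) 0) ^ 2),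
    ← bet_eq hx, ← Qx_eq hLS hln] at hmain
  unfold trm
  have h1 : eta L γ X x = ∑ l ∈ L.filter (fun l => x ∉ l), max (γ x - γ (X l)) 0 := rfl
  rw [← h1] at hmain
  linarith

end Pool.Agent.Q123.PLP
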